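import Pool.Agent.Slater63.Main13
import Pool.Agent.Slater63.Base14
import Pool.Agent.Slater63.Base15

namespace Pool.Agent.Slater63

open Pool.Agent.H88

/-- `Q_n` has a local Hamiltonian path for all `n = 14, 18, 22, …`. -/
theorem two_mod_four (k : ℕ) : HasLocalHamPath (14 + 4 * k) :=
  hasLocal_iter base14_ok k

/-- `Q_n` has a local Hamiltonian path for all `n = 15, 19, 23, …`. -/
theorem three_mod_four (k : ℕ) : HasLocalHamPath (15 + 4 * k) :=
  hasLocal_iter base15_ok k

/-- `Q_n` has a local Hamiltonian path for every `n ≥ 12`. -/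
theorem ge_twelve (n : ℕ) (hn : 12 ≤ n) : HasLocalHamPath n := by
  have h : n % 4 = 0 ∨ n % 4 = 1 ∨ n % 4 = 2 ∨ n % 4 = 3 := by omega
  rcases h with h | h | h | h
  · have e : n = 12 + 4 * ((n - 12) / 4) := by omega
    rw [e]
    exact zero_mod_four _
  · have e : n = 13 + 4 * ((n - 13) / 4) := by omega
    rw [e]
    exact one_mod_four _
  · have e : n = 14 + 4 * ((n - 14) / 4) := by omega
    rw [e]
    exact two_mod_four _
  · have e : n = 15 + 4 * ((n - 15) / 4) := by omega
    rw [e]
    exact three_mod_four _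

end Pool.Agent.Slater63
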