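import Pool.Agent.Slater63.Check

/-! Checker for the base cases: a path given by a table of used directions and its two ends. -/

namespace Pool.Agent.Slater63

open Relation

/-- used directions: the vertex `e1` uses only `d1`, the vertex `e2` uses only `d2`, every other
vertex `v` uses `look t v` and `look t v + 1`. -/
def UT (t e1 d1 e2 d2 v d : ℕ) : Bool :=
  cond (Nat.beq v e1) (Nat.beq d d1) (cond (Nat.beq v e2) (Nat.beq d d2) (GT t v d))

/-- Walk, marking the visited vertices. -/
def walkB (t e1 e2 : ℕ) : ℕ → ℕ → ℕ → ℕ → ℕ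
  | 0, _, _, mask => mask
  | f + 1, x, d, mask =>
    cond (Nat.beq (Nat.land 1 (Nat.shiftRight mask x)) 0)
      (cond (Nat.beq x e1 || Nat.beq x e2)
        (Nat.lor mask (Nat.pow 2 x))
        (walkB t e1 e2 f (Nat.xor x (Nat.pow 2 (cond (Nat.beq (look t x) d) (Nat.succ d) (look t x))))
          (cond (Nat.beq (look t x) d) (Nat.succ d) (look t x)) (Nat.lor mask (Nat.pow 2 x))))
      mask

theorem walkB_spec {t e1 d1 e2 d2 a : ℕ} : ∀ (f x d mask : ℕ),
    ReflTransGen (Adj (UT t e1 d1 e2 d2)) a x →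
    (∀ j, mask.testBit j = true → ReflTransGen (Adj (UT t e1 d1 e2 d2)) a j) →
    ∀ j, (walkB t e1 e2 f x d mask).testBit j = true → ReflTransGen (Adj (UT t e1 d1 e2 d2)) a j
  | 0, _, _, _, _, hm => hm
  | f + 1, x, d, mask, hx, hm => by
    have hm' : ∀ j, (Nat.lor mask (Nat.pow 2 x)).testBit j = true →
        ReflTransGen (Adj (UT t e1 d1 e2 d2)) a j := by
      intro j hj
      have e : (Nat.lor mask (Nat.pow 2 x)).testBit j = (mask.testBit j || (2 ^ x).testBit j) :=
        Nat.testBit_or _ _ _
      rw [e, Bool.or_eq_true, Nat.testBit_two_pow, decide_eq_true_eq] at hj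
      rcases hj with hj | hj
      · exact hm j hj
      · rw [← hj]
        exact hx
    rw [walkB]
    cases h1 : Nat.beq (Nat.land 1 (Nat.shiftRight mask x)) 0 with
    | false => exact hm
    | true =>
      rw [cond_true]
      cases h2 : (Nat.beq x e1 || Nat.beq x e2) with
      | true => exact hm'
      | false =>
        rw [cond_false]
        rw [Bool.or_eq_false_iff] at h2
        apply walkB_spec f _ _ _ _ hm'
        refine hx.tail ⟨_, ?_, rfl⟩
        rw [UT, h2.1, h2.2, cond_false, cond_false, GT_iff]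
        cases h3 : Nat.beq (look t x) d with
        | true =>
          right
          rw [cond_true]
          have := Nat.eq_of_beq_eq_true h3
          rw [this]
        | false =>
          left
          rfl

/-- the local facts at `v`; `n` is the dimension and `k = n - 6`. -/
def chkB (n k t e1 d1 e2 d2 v : ℕ) : Bool :=
  cond (Nat.beq v e1)
    (Nat.ble (Nat.succ d1) n && (UT t e1 d1 e2 d2 (Nat.xor v (Nat.pow 2 d1)) d1 &&
      cond (Nat.beq (Nat.succ d1) n) (Nat.beq (Nat.mod (Nat.div v (Nat.pow 2 k)) 32) 0)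
        (!(Nat.beq (Nat.mod (Nat.div v (Nat.pow 2 k)) 32) 0))))
    (cond (Nat.beq v e2)
      (Nat.ble (Nat.succ d2) n && (UT t e1 d1 e2 d2 (Nat.xor v (Nat.pow 2 d2)) d2 &&
        cond (Nat.beq (Nat.succ d2) n) (Nat.beq (Nat.mod (Nat.div v (Nat.pow 2 k)) 32) 0)
          (!(Nat.beq (Nat.mod (Nat.div v (Nat.pow 2 k)) 32) 0))))
      (Nat.ble (Nat.succ (Nat.succ (look t v))) n &&
        (UT t e1 d1 e2 d2 (Nat.xor v (Nat.pow 2 (look t v))) (look t v) &&
        (UT t e1 d1 e2 d2 (Nat.xor v (Nat.pow 2 (Nat.succ (look t v)))) (Nat.succ (look t v)) &&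
        cond (Nat.beq (Nat.succ (Nat.succ (look t v))) n)
          (Nat.beq (Nat.mod (Nat.div v (Nat.pow 2 k)) 32) 0)
          (!(Nat.beq (Nat.mod (Nat.div v (Nat.pow 2 k)) 32) 0))))))

def maskB (n t e1 d1 e2 : ℕ) : ℕ :=
  walkB t e1 e2 (Nat.pow 2 n) (Nat.xor e1 (Nat.pow 2 d1)) d1 (Nat.pow 2 e1)

/-- the walk visits everything. -/
def fullB (n t e1 d1 e2 : ℕ) : Bool :=
  Nat.beq (maskB n t e1 d1 e2) (Nat.sub (Nat.pow 2 (Nat.pow 2 n)) 1)

theorem base_of {J t e1 d1 e2 d2 : ℕ} (he1 : e1 < 2 ^ (8 + J))
    (h : allBelow (chkB (8 + J) (2 + J) t e1 d1 e2 d2) (2 ^ (8 + J)) = true)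
    (hw : fullB (8 + J) t e1 d1 e2 = true) :
    TC J (UT t e1 d1 e2 d2) := by
  rw [fullB] at hw
  have hloc : ∀ v, v < 2 ^ (8 + J) → ∀ d, UT t e1 d1 e2 d2 v d = true →
      d < 8 + J ∧ UT t e1 d1 e2 d2 (v ^^^ 2 ^ d) d = true := by
    intro v hv d hd
    have h1 := allBelow_spec h v hv
    rw [chkB] at h1
    rw [UT] at hd
    cases c1 : Nat.beq v e1 with
    | true =>
      rw [c1, cond_true, Bool.and_eq_true, Bool.and_eq_true] at h1
      rw [c1, cond_true, beq_true] at hd
      subst hd
      exact ⟨Nat.le_of_ble_eq_true h1.1, h1.2.1⟩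
    | false =>
      rw [c1, cond_false] at h1 hd
      cases c2 : Nat.beq v e2 with
      | true =>
        rw [c2, cond_true, Bool.and_eq_true, Bool.and_eq_true] at h1
        rw [c2, cond_true, beq_true] at hd
        subst hd
        exact ⟨Nat.le_of_ble_eq_true h1.1, h1.2.1⟩
      | false =>
        rw [c2, cond_false] at h1 hd
        rw [Bool.and_eq_true, Bool.and_eq_true, Bool.and_eq_true] at h1
        have h2 : look t v + 1 < 8 + J := Nat.le_of_ble_eq_true h1.1
        rcases GT_iff.mp hd with rfl | rfl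
        · exact ⟨by omega, h1.2.1⟩
        · exact ⟨h2, h1.2.2.1⟩
  have hlt : ∀ v d, v < 2 ^ (8 + J) → UT t e1 d1 e2 d2 v d = true → d < 8 + J :=
    fun v d hv hd => (hloc v hv d hd).1
  have hsymm : ∀ v d, v < 2 ^ (8 + J) → UT t e1 d1 e2 d2 v d = true →
      UT t e1 d1 e2 d2 (v ^^^ 2 ^ d) d = true := fun v d hv hd => (hloc v hv d hd).2
  have hd1 : UT t e1 d1 e2 d2 e1 d1 = true := by
    have c1 : Nat.beq e1 e1 = true := beq_true.mpr rfl
    rw [UT, c1, cond_true]
    exact beq_true.mpr rfl
  have hreach : ∀ v, v < 2 ^ (8 + J) → ReflTransGen (Adj (UT t e1 d1 e2 d2)) e1 v := by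
    intro v hv
    refine walkB_spec (t := t) (e1 := e1) (d1 := d1) (e2 := e2) (d2 := d2) (Nat.pow 2 (8 + J))
      (Nat.xor e1 (Nat.pow 2 d1)) d1 (Nat.pow 2 e1) (ReflTransGen.single ⟨d1, hd1, rfl⟩) ?_ v ?_
    · intro j hj
      have : (2 ^ e1).testBit j = true := hj
      rw [Nat.testBit_two_pow, decide_eq_true_eq] at this
      rw [this]
    · rw [beq_true] at hw
      have e : maskB (8 + J) t e1 d1 e2 = 2 ^ (2 ^ (8 + J)) - 1 := hw
      rw [maskB] at e
      rw [e, Nat.testBit_two_pow_sub_one, decide_eq_true_eq]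
      exact hv
  refine ⟨⟨hlt, hsymm, ?_, ?_⟩, ?_⟩
  · intro v d d' hv hd hd' hne
    rw [UT] at hd hd'
    cases c1 : Nat.beq v e1 with
    | true =>
      rw [c1, cond_true, beq_true] at hd hd'
      exact absurd (hd.trans hd'.symm) hne
    | false =>
      rw [c1, cond_false] at hd hd'
      cases c2 : Nat.beq v e2 with
      | true =>
        rw [c2, cond_true, beq_true] at hd hd'
        exact absurd (hd.trans hd'.symm) hne
      | false =>
        rw [c2, cond_false, GT_iff] at hd hd'
        omega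
  · intro v w hv hw'
    exact (rev hlt hsymm he1 (hreach v hv)).2.trans (hreach w hw')
  · intro v hv
    have h1 := allBelow_spec h v hv
    rw [chkB] at h1
    rw [UT]
    have e0 : Nat.mod (Nat.div v (Nat.pow 2 (2 + J))) 32 = v / 2 ^ (2 + J) % 32 := rfl
    rw [e0] at h1
    cases c1 : Nat.beq v e1 with
    | true =>
      rw [c1, cond_true, Bool.and_eq_true, Bool.and_eq_true] at h1
      rw [cond_true, beq_true]
      obtain ⟨_, _, h3⟩ := h1
      cases c3 : Nat.beq (Nat.succ d1) (8 + J) with
      | true =>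
        rw [c3, cond_true, beq_true] at h3
        rw [beq_true] at c3
        exact ⟨fun _ => h3, fun _ => by omega⟩
      | false =>
        rw [c3, cond_false, Bool.not_eq_true', beq_false] at h3
        rw [beq_false] at c3
        exact ⟨fun hh => absurd (by omega) c3, fun hh => absurd hh h3⟩
    | false =>
      rw [c1, cond_false] at h1
      rw [cond_false]
      cases c2 : Nat.beq v e2 with
      | true =>
        rw [c2, cond_true, Bool.and_eq_true, Bool.and_eq_true] at h1
        rw [cond_true, beq_true]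
        obtain ⟨_, _, h3⟩ := h1
        cases c3 : Nat.beq (Nat.succ d2) (8 + J) with
        | true =>
          rw [c3, cond_true, beq_true] at h3
          rw [beq_true] at c3
          exact ⟨fun _ => h3, fun _ => by omega⟩
        | false =>
          rw [c3, cond_false, Bool.not_eq_true', beq_false] at h3
          rw [beq_false] at c3
          exact ⟨fun hh => absurd (by omega) c3, fun hh => absurd hh h3⟩
      | false =>
        rw [c2, cond_false, Bool.and_eq_true, Bool.and_eq_true, Bool.and_eq_true] at h1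
        rw [cond_false, GT_iff]
        obtain ⟨h0, _, _, h3⟩ := h1
        have h0' : look t v + 1 < 8 + J := Nat.le_of_ble_eq_true h0
        cases c3 : Nat.beq (Nat.succ (Nat.succ (look t v))) (8 + J) with
        | true =>
          rw [c3, cond_true, beq_true] at h3
          rw [beq_true] at c3
          exact ⟨fun _ => h3, fun _ => by omega⟩
        | false =>
          rw [c3, cond_false, Bool.not_eq_true', beq_false] at h3
          rw [beq_false] at c3
          exact ⟨fun hh => absurd (by omega) c3, fun hh => absurd hh h3⟩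

end Pool.Agent.Slater63
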