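import Pool.Agent.Slater63.Ham

namespace Pool.Agent.Slater63

theorem xor_div (a b k : ℕ) : (a ^^^ b) / 2 ^ k = (a / 2 ^ k) ^^^ (b / 2 ^ k) := by
  apply Nat.eq_of_testBit_eq
  intro i
  simp [Nat.testBit_div_two_pow, Nat.testBit_xor]

theorem pow_div_low {d k : ℕ} (h : d < k) : 2 ^ d / 2 ^ k = 0 :=
  Nat.div_eq_of_lt (Nat.pow_lt_pow_right (by norm_num) h)

theorem xor_div_low {v d k : ℕ} (h : d < k) : (v ^^^ 2 ^ d) / 2 ^ k = v / 2 ^ k := by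
  rw [xor_div, pow_div_low h, Nat.xor_zero]

theorem xor_div_high {v i k : ℕ} : (v ^^^ 2 ^ (i + k)) / 2 ^ k = (v / 2 ^ k) ^^^ 2 ^ i := by
  rw [xor_div, Nat.pow_add, Nat.mul_div_cancel _ (by positivity)]

theorem xor_mul_div {v c k : ℕ} : (v ^^^ (c * 2 ^ k)) / 2 ^ k = (v / 2 ^ k) ^^^ c := by
  rw [xor_div, Nat.mul_div_cancel _ (by positivity)]

theorem mk_xor {J a p c : ℕ} (hp : p < 2 ^ J) :
    (2 ^ J * a + p) ^^^ (c * 2 ^ J) = 2 ^ J * (a ^^^ c) + p := by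
  apply Nat.eq_of_testBit_eq
  intro j
  rw [Nat.testBit_xor, Nat.testBit_two_pow_mul_add _ hp, Nat.testBit_two_pow_mul_add _ hp,
    Nat.mul_comm c, Nat.testBit_two_pow_mul]
  by_cases h : j < J
  · simp [h, Nat.not_le_of_lt h]
  · simp [h, Nat.testBit_xor, Nat.le_of_not_lt h]

theorem mk_xor_pow {J a p i : ℕ} (hp : p < 2 ^ J) :
    (2 ^ J * a + p) ^^^ 2 ^ (i + J) = 2 ^ J * (a ^^^ 2 ^ i) + p := by
  rw [Nat.pow_add, mk_xor hp]

theorem mk_div {J a p : ℕ} (hp : p < 2 ^ J) : (2 ^ J * a + p) / 2 ^ J = a := by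
  rw [Nat.mul_add_div (by positivity), Nat.div_eq_of_lt hp, Nat.add_zero]

theorem div_add (v a b : ℕ) : v / 2 ^ (a + b) = v / 2 ^ b / 2 ^ a := by
  rw [Nat.div_div_eq_div_mul, ← Nat.pow_add, Nat.add_comm]

theorem rev {n : ℕ} {U : ℕ → ℕ → Bool} (hlt : ∀ v d, v < 2 ^ n → U v d = true → d < n)
    (hsymm : ∀ v d, v < 2 ^ n → U v d = true → U (v ^^^ 2 ^ d) d = true) {a b : ℕ}
    (ha : a < 2 ^ n) (h : Relation.ReflTransGen (Adj U) a b) :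
    b < 2 ^ n ∧ Relation.ReflTransGen (Adj U) b a := by
  induction h with
  | refl => exact ⟨ha, Relation.ReflTransGen.refl⟩
  | tail _ hbc ih =>
    obtain ⟨hb, hba⟩ := ih
    obtain ⟨d, hd, rfl⟩ := hbc
    refine ⟨xor_pow_lt hb (hlt _ _ hb hd), ?_⟩
    exact Relation.ReflTransGen.head ⟨d, hsymm _ _ hb hd, (xor_xor_self _ _).symm⟩ hba

end Pool.Agent.Slater63
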