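import Pool.Agent.Slater63.TabData

/-! Kernel-friendly checkers. -/

namespace Pool.Agent.Slater63

open Relation

/-- `f i` for all `i < n`. -/
def allBelow (f : ℕ → Bool) : ℕ → Bool
  | 0 => true
  | n + 1 => f n && allBelow f n

theorem allBelow_spec {f : ℕ → Bool} : ∀ {n : ℕ}, allBelow f n = true → ∀ i, i < n → f i = true
  | 0, _, i, hi => absurd hi (Nat.not_lt_zero i)
  | n + 1, h, i, hi => by
    rw [allBelow, Bool.and_eq_true] at h
    rcases Nat.lt_or_eq_of_le (Nat.le_of_lt_succ hi) with h1 | h1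
    · exact allBelow_spec h.2 i h1
    · rw [h1]
      exact h.1

/-- entry `u` of a table with four bits per entry. -/
def look (t u : ℕ) : ℕ := Nat.land (Nat.shiftRight t (Nat.mul 4 u)) 15

/-- the vertices in the two holes. -/
def isHole (u : ℕ) : Bool := Nat.beq (Nat.div u 128) 9 || Nat.beq (Nat.div u 128) 13

theorem beq_true {a b : ℕ} : Nat.beq a b = true ↔ a = b := by
  rw [Nat.beq_eq]

theorem beq_false {a b : ℕ} : Nat.beq a b = false ↔ a ≠ b := by
  rw [← Bool.not_eq_true, beq_true]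

theorem isHole_false {u : ℕ} : isHole u = false ↔ Out u := by
  rw [isHole, Bool.or_eq_false_iff, beq_false, beq_false]
  rfl

/-- Walk outside the holes, marking the visited vertices. -/
def walk (t : ℕ) : ℕ → ℕ → ℕ → ℕ → ℕ × ℕ
  | 0, x, _, mask => (x, mask)
  | f + 1, x, d, mask =>
    cond (Nat.beq (Nat.land 1 (Nat.shiftRight mask x)) 0)
      (cond (isHole (Nat.xor x (Nat.pow 2 (cond (Nat.beq (look t x) d) (Nat.succ d) (look t x)))))
        (x, Nat.lor mask (Nat.pow 2 x))
        (walk t f (Nat.xor x (Nat.pow 2 (cond (Nat.beq (look t x) d) (Nat.succ d) (look t x))))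
          (cond (Nat.beq (look t x) d) (Nat.succ d) (look t x)) (Nat.lor mask (Nat.pow 2 x))))
      (x, mask)

/-- used directions from a table. -/
def GT (t u i : ℕ) : Bool := Nat.beq i (look t u) || Nat.beq i (Nat.succ (look t u))

theorem GT_iff {t u i : ℕ} : GT t u i = true ↔ i = look t u ∨ i = look t u + 1 := by
  simp [GT]

theorem walk_spec {t a : ℕ} : ∀ (f x d mask : ℕ), Out x → ReflTransGen (GStep (GT t)) a x →
    (∀ j, mask.testBit j = true → ReflTransGen (GStep (GT t)) a j) →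
    ReflTransGen (GStep (GT t)) a (walk t f x d mask).1 ∧
      ∀ j, (walk t f x d mask).2.testBit j = true → ReflTransGen (GStep (GT t)) a j
  | 0, x, d, mask, _, hx, hm => ⟨hx, hm⟩
  | f + 1, x, d, mask, hox, hx, hm => by
    have hm' : ∀ j, (Nat.lor mask (Nat.pow 2 x)).testBit j = true →
        ReflTransGen (GStep (GT t)) a j := by
      intro j hj
      have e : (Nat.lor mask (Nat.pow 2 x)).testBit j = (mask.testBit j || (2 ^ x).testBit j) :=
        Nat.testBit_or _ _ _
      rw [e, Bool.or_eq_true, Nat.testBit_two_pow, decide_eq_true_eq] at hj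
      rcases hj with hj | hj
      · exact hm j hj
      · rw [← hj]
        exact hx
    rw [walk]
    cases h1 : Nat.beq (Nat.land 1 (Nat.shiftRight mask x)) 0 with
    | false => exact ⟨hx, hm⟩
    | true =>
      rw [cond_true]
      cases h2 : isHole (Nat.xor x (Nat.pow 2 (cond (Nat.beq (look t x) d) (Nat.succ d) (look t x)))) with
      | true => exact ⟨hx, hm'⟩
      | false =>
        rw [cond_false]
        rw [isHole_false] at h2
        apply walk_spec f _ _ _ h2 _ hm'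
        refine hx.tail ⟨hox, h2, _, ?_, rfl⟩
        rw [GT_iff]
        cases h3 : Nat.beq (look t x) d with
        | true =>
          right
          rw [cond_true]
          have := Nat.eq_of_beq_eq_true h3
          rw [this]
        | false =>
          left
          rfl

/-- one used direction `i` at `u`. -/
def chk1 (t u i : ℕ) : Bool :=
  cond (Nat.beq (Nat.div (Nat.xor u (Nat.pow 2 i)) 128) 9)
    (Nat.beq i 7 && Nat.ble (Nat.succ (Nat.xor (Nat.xor u (Nat.pow 2 i)) 1248)) 4)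
    (cond (Nat.beq (Nat.div (Nat.xor u (Nat.pow 2 i)) 128) 13)
      (Nat.beq i 7 && Nat.beq (Nat.div (Nat.xor (Nat.xor u (Nat.pow 2 i)) 1632) 4) 32)
      (GT t (Nat.xor u (Nat.pow 2 i)) i))

/-- the local facts at `u`. -/
def chk (t u : ℕ) : Bool :=
  isHole u || (Nat.ble (look t u) 10 && (chk1 t u (look t u) && (chk1 t u (Nat.succ (look t u)) &&
    cond (Nat.beq (look t u) 10) (Nat.beq (Nat.mod (Nat.div u 64) 32) 0)
      (!(Nat.beq (Nat.mod (Nat.div u 64) 32) 0)))))

def portOk (t u : ℕ) : Bool := !(isHole u) && GT t u 7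

theorem chk1_out {t u i : ℕ} (h : chk1 t u i = true) (ho : Out (u ^^^ 2 ^ i)) :
    GT t (u ^^^ 2 ^ i) i = true := by
  have e9 : Nat.beq (Nat.div (Nat.xor u (Nat.pow 2 i)) 128) 9 = false := beq_false.mpr ho.1
  have e13 : Nat.beq (Nat.div (Nat.xor u (Nat.pow 2 i)) 128) 13 = false := beq_false.mpr ho.2
  rw [chk1, e9, e13] at h
  exact h

theorem chk1_h0 {t u i : ℕ} (h : chk1 t u i = true) (ho : (u ^^^ 2 ^ i) / 128 = 9) :
    i = 7 ∧ ((u ^^^ 2 ^ i) ^^^ 1248) < 4 := by
  have e9 : Nat.beq (Nat.div (Nat.xor u (Nat.pow 2 i)) 128) 9 = true := beq_true.mpr ho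
  rw [chk1, e9, cond_true, Bool.and_eq_true, beq_true] at h
  exact ⟨h.1, Nat.le_of_ble_eq_true h.2⟩

theorem chk1_h1 {t u i : ℕ} (h : chk1 t u i = true) (ho : (u ^^^ 2 ^ i) / 128 = 13) :
    i = 7 ∧ ((u ^^^ 2 ^ i) ^^^ 1632) / 4 = 32 := by
  have e9 : Nat.beq (Nat.div (Nat.xor u (Nat.pow 2 i)) 128) 9 = false := by
    rw [beq_false]
    intro hh
    have h9 : (u ^^^ 2 ^ i) / 128 = 9 := hh
    omega
  have e13 : Nat.beq (Nat.div (Nat.xor u (Nat.pow 2 i)) 128) 13 = true := beq_true.mpr ho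
  rw [chk1, e9, cond_false, e13, cond_true, Bool.and_eq_true, beq_true, beq_true] at h
  exact h

/-- `u` outside the holes is marked in one of the four masks. -/
def covered (m0 m1 m2 m3 u : ℕ) : Bool :=
  isHole u || !(Nat.beq (Nat.land 1 (Nat.shiftRight (Nat.lor (Nat.lor m0 m1) (Nat.lor m2 m3)) u)) 0)

def w0 (t : ℕ) : ℕ × ℕ := walk t 4096 1120 7 0
def w1 (t : ℕ) : ℕ × ℕ := walk t 4096 1121 7 0
def w2 (t : ℕ) : ℕ × ℕ := walk t 4096 1122 7 0
def w3 (t : ℕ) : ℕ × ℕ := walk t 4096 1123 7 0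

theorem tab_of {t : ℕ} {m0 m1 m2 m3 : ℕ} (h : allBelow (chk t) 4096 = true)
    (hp0 : allBelow (fun y => portOk t (Nat.xor (Nat.xor y 1248) 128)) 4 = true)
    (hp1 : allBelow (fun y => portOk t (Nat.xor (Nat.xor (Nat.add 128 y) 1632) 128)) 4 = true)
    (e0 : w0 t = (1632 ^^^ 0, m0)) (e1 : w1 t = (1633, m1)) (e2 : w2 t = (1634, m2))
    (e3 : w3 t = (1635, m3)) (hc : allBelow (covered m0 m1 m2 m3) 4096 = true) :
    Tab (GT t) := by
  have hloc : ∀ u, u < 4096 → Out u → look t u ≤ 10 ∧ chk1 t u (look t u) = true ∧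
      chk1 t u (look t u + 1) = true ∧ (look t u = 10 ↔ u / 64 % 32 = 0) := by
    intro u hu ho
    have h1 := allBelow_spec h u hu
    rw [chk, isHole_false.mpr ho, Bool.false_or, Bool.and_eq_true, Bool.and_eq_true,
      Bool.and_eq_true] at h1
    obtain ⟨a1, a2, a3, a4⟩ := h1
    refine ⟨Nat.le_of_ble_eq_true a1, a2, a3, ?_⟩
    cases h5 : Nat.beq (look t u) 10 with
    | true =>
      rw [h5, cond_true, beq_true] at a4
      rw [beq_true] at h5
      exact ⟨fun _ => a4, fun _ => h5⟩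
    | false =>
      rw [h5, cond_false, Bool.not_eq_true', beq_false] at a4
      rw [beq_false] at h5
      exact ⟨fun hh => absurd hh h5, fun hh => absurd hh a4⟩
  have hchk : ∀ u, u < 4096 → Out u → ∀ i, GT t u i = true → chk1 t u i = true := by
    intro u hu ho i hi
    obtain ⟨_, a2, a3, _⟩ := hloc u hu ho
    rcases GT_iff.mp hi with rfl | rfl
    · exact a2
    · exact a3
  have hport0 : ∀ y, y < 4 → Out ((y ^^^ 1248) ^^^ 2 ^ 7) ∧ GT t ((y ^^^ 1248) ^^^ 2 ^ 7) 7 = true := by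
    intro y hy
    have h1 := allBelow_spec hp0 y hy
    rw [portOk, Bool.and_eq_true, Bool.not_eq_true', isHole_false] at h1
    exact h1
  have hport1 : ∀ y, y < 4 → Out (((128 + y) ^^^ 1632) ^^^ 2 ^ 7) ∧
      GT t (((128 + y) ^^^ 1632) ^^^ 2 ^ 7) 7 = true := by
    intro y hy
    have h1 := allBelow_spec hp1 y hy
    rw [portOk, Bool.and_eq_true, Bool.not_eq_true', isHole_false] at h1
    exact h1
  have hw : ∀ y, y < 4 → ∀ e m, walk t 4096 ((y ^^^ 1248) ^^^ 2 ^ 7) 7 0 = (e, m) →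
      ReflTransGen (GStep (GT t)) ((y ^^^ 1248) ^^^ 2 ^ 7) e ∧
      ∀ j, m.testBit j = true → ReflTransGen (GStep (GT t)) ((y ^^^ 1248) ^^^ 2 ^ 7) j := by
    intro y hy e m he
    have := walk_spec (t := t) (a := (y ^^^ 1248) ^^^ 2 ^ 7) 4096 ((y ^^^ 1248) ^^^ 2 ^ 7) 7 0
      (hport0 y hy).1 ReflTransGen.refl (by simp)
    rw [he] at this
    exact this
  have f0 := hw 0 (by norm_num) _ _ e0
  have f1 := hw 1 (by norm_num) _ _ e1
  have f2 := hw 2 (by norm_num) _ _ e2
  have f3 := hw 3 (by norm_num) _ _ e3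
  refine ⟨?_, ?_, ?_, ?_, ?_, hport0, hport1, ?_, ?_, ?_⟩
  · intro u hu ho i hi
    obtain ⟨a1, _⟩ := hloc u hu ho
    rcases GT_iff.mp hi with rfl | rfl <;> omega
  · intro u i i' hi hi' hne
    rw [GT_iff] at hi hi'
    omega
  · intro u hu ho i hi ho'
    exact chk1_out (hchk u hu ho i hi) ho'
  · intro u hu ho i hi ho'
    exact chk1_h0 (hchk u hu ho i hi) ho'
  · intro u hu ho i hi ho'
    exact chk1_h1 (hchk u hu ho i hi) ho'
  · intro u hu ho
    obtain ⟨a1, _, _, a4⟩ := hloc u hu ho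
    rw [GT_iff, ← a4]
    omega
  · intro y hy
    have : y = 0 ∨ y = 1 ∨ y = 2 ∨ y = 3 := by omega
    rcases this with rfl | rfl | rfl | rfl
    · exact f0.1
    · exact f1.1
    · exact f2.1
    · exact f3.1
  · intro u hu ho
    have h1 := allBelow_spec hc u hu
    rw [covered, isHole_false.mpr ho, Bool.false_or, Bool.not_eq_true', beq_false] at h1
    have h2 : (((m0 ||| m1) ||| (m2 ||| m3)) : ℕ).testBit u = true := by
      rw [Nat.testBit]
      simp only [bne_iff_ne, ne_eq]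
      exact h1
    rw [Nat.testBit_or, Nat.testBit_or, Nat.testBit_or, Bool.or_eq_true, Bool.or_eq_true,
      Bool.or_eq_true] at h2
    rcases h2 with (h2 | h2) | (h2 | h2)
    · exact ⟨0, by norm_num, f0.2 u h2⟩
    · exact ⟨1, by norm_num, f1.2 u h2⟩
    · exact ⟨2, by norm_num, f2.2 u h2⟩
    · exact ⟨3, by norm_num, f3.2 u h2⟩

end Pool.Agent.Slater63
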