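import Pool.Agent.Slater63.StepConn

/-! Doubling at the bottom: a two-column path with an end which uses only the lowest direction gives a
two-column path one dimension higher (a new lowest coordinate is added, two copies are joined at that
end). -/

namespace Pool.Agent.Slater63

open Relation

/-- The doubled graph. -/
def dblU (v0 : ℕ) (U : ℕ → ℕ → Bool) (v d : ℕ) : Bool :=
  if d = 0 then decide (v / 2 = v0) else U (v / 2) (d - 1)

theorem xor_div2_zero (v : ℕ) : (v ^^^ 2 ^ 0) / 2 = v / 2 := by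
  have h : (v ^^^ 2 ^ 0) / 2 ^ 1 = v / 2 ^ 1 := xor_div_low (by norm_num)
  rwa [pow_one] at h

theorem xor_div2_succ (v i : ℕ) : (v ^^^ 2 ^ (i + 1)) / 2 = (v / 2) ^^^ 2 ^ i := by
  have h : (v ^^^ 2 ^ (i + 1)) / 2 ^ 1 = (v / 2 ^ 1) ^^^ 2 ^ i := xor_div_high
  rwa [pow_one] at h

theorem xor_mod2_succ (v i : ℕ) : (v ^^^ 2 ^ (i + 1)) % 2 = v % 2 := by
  have h : (v ^^^ 2 ^ (i + 1)) % 2 ^ 1 = (v % 2 ^ 1) ^^^ (2 ^ (i + 1) % 2 ^ 1) :=
    Nat.xor_mod_two_pow
  have h2 : 2 ^ (i + 1) % 2 ^ 1 = 0 := by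
    rw [pow_one, Nat.pow_succ]
    omega
  rw [h2, Nat.xor_zero, pow_one] at h
  exact h

theorem dbl_zero {v0 : ℕ} {U : ℕ → ℕ → Bool} {v : ℕ} :
    dblU v0 U v 0 = true ↔ v / 2 = v0 := by
  rw [dblU, if_pos rfl, decide_eq_true_eq]

theorem dbl_succ {v0 : ℕ} {U : ℕ → ℕ → Bool} {v i : ℕ} :
    dblU v0 U v (i + 1) = U (v / 2) i := by
  rw [dblU, if_neg (by omega), Nat.add_sub_cancel]

theorem half_lt {n v : ℕ} (hv : v < 2 ^ (n + 1)) : v / 2 < 2 ^ n := by
  rw [Nat.pow_succ] at hv
  omega

theorem dbl_good {n v0 : ℕ} {U : ℕ → ℕ → Bool} (hU : Good n U) (h0 : v0 < 2 ^ n)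
    (hend : ∀ d, U v0 d = true → d = 0) : Good (n + 1) (dblU v0 U) := by
  have hlt : ∀ v d, v < 2 ^ (n + 1) → dblU v0 U v d = true → d < n + 1 := by
    intro v d hv hd
    cases d with
    | zero => omega
    | succ i =>
      rw [dbl_succ] at hd
      have := hU.lt _ _ (half_lt hv) hd
      omega
  have hsymm : ∀ v d, v < 2 ^ (n + 1) → dblU v0 U v d = true →
      dblU v0 U (v ^^^ 2 ^ d) d = true := by
    intro v d hv hd
    cases d with
    | zero =>
      rw [dbl_zero] at hd ⊢
      rw [xor_div2_zero, hd]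
    | succ i =>
      rw [dbl_succ] at hd ⊢
      rw [xor_div2_succ]
      exact hU.symm _ _ (half_lt hv) hd
  -- lifting walks
  have hlift : ∀ v w : ℕ, ReflTransGen (Adj U) v w → ∀ ε : ℕ, ε < 2 →
      ReflTransGen (Adj (dblU v0 U)) (2 * v + ε) (2 * w + ε) := by
    intro v w h ε hε
    induction h with
    | refl => exact ReflTransGen.refl
    | tail _ hbc ih =>
      rename_i b c _
      obtain ⟨d, hd, rfl⟩ := hbc
      refine ih.tail ⟨d + 1, ?_, ?_⟩
      · rw [dbl_succ]
        have : (2 * b + ε) / 2 = b := by omega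
        rw [this]
        exact hd
      · have e1 := xor_div2_succ (2 * b + ε) d
        have e2 := xor_mod2_succ (2 * b + ε) d
        have h1 : (2 * b + ε) / 2 = b := by omega
        rw [h1] at e1
        have h2 : (2 * b + ε) % 2 = ε := by omega
        rw [h2] at e2
        have := Nat.div_add_mod ((2 * b + ε) ^^^ 2 ^ (d + 1)) 2
        rw [e1, e2] at this
        exact this
  have hjoin : ReflTransGen (Adj (dblU v0 U)) (2 * v0) (2 * v0 + 1) := by
    refine ReflTransGen.single ⟨0, ?_, ?_⟩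
    · rw [dbl_zero]
      omega
    · have h1 : (2 * v0) ^^^ 1 = 2 * v0 + 1 := by
        apply Nat.eq_of_testBit_eq
        intro j
        cases j with
        | zero => simp
        | succ j =>
          rw [Nat.testBit_xor, Nat.testBit_succ, Nat.testBit_succ, Nat.testBit_succ]
          have a1 : 2 * v0 / 2 = v0 := by omega
          have a2 : (2 * v0 + 1) / 2 = v0 := by omega
          rw [a1, a2]
          simp
      rw [pow_zero]
      exact h1.symm
  have hroot : ∀ v, v < 2 ^ (n + 1) → ReflTransGen (Adj (dblU v0 U)) (2 * v0) v := by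
    intro v hv
    have hc := hU.conn v0 (v / 2) h0 (half_lt hv)
    rcases Nat.mod_two_eq_zero_or_one v with h2 | h2
    · have h3 := hlift _ _ hc 0 (by norm_num)
      have e : 2 * (v / 2) + 0 = v := by omega
      rw [e, Nat.add_zero] at h3
      exact h3
    · have h3 := hlift _ _ hc 1 (by norm_num)
      have e : 2 * (v / 2) + 1 = v := by omega
      rw [e] at h3
      exact hjoin.trans h3
  refine ⟨hlt, hsymm, ?_, ?_⟩
  · intro v d d' hv hd hd' hne
    cases d with
    | zero =>
      cases d' with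
      | zero => exact absurd rfl hne
      | succ i =>
        rw [dbl_zero] at hd
        rw [dbl_succ, hd] at hd'
        have := hend _ hd'
        omega
    | succ i =>
      rw [dbl_succ] at hd
      cases d' with
      | zero =>
        rw [dbl_zero] at hd'
        rw [hd'] at hd
        have := hend _ hd
        omega
      | succ i' =>
        rw [dbl_succ] at hd'
        have := hU.adj _ _ _ (half_lt hv) hd hd' (by omega)
        omega
  · intro v w hv hw
    have h2 : 2 * v0 < 2 ^ (n + 1) := by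
      rw [Nat.pow_succ]
      omega
    exact ((rev hlt hsymm h2 (hroot v hv)).2).trans (hroot w hw)

/-- Bottom doubling of two-column paths. -/
theorem dbl_TC {J v0 : ℕ} {U : ℕ → ℕ → Bool} (hU : TC J U) (h0 : v0 < 2 ^ (8 + J))
    (hend : ∀ d, U v0 d = true → d = 0) : TC (J + 1) (dblU v0 U) := by
  refine ⟨?_, ?_⟩
  · have := dbl_good hU.good h0 hend
    rwa [show 8 + (J + 1) = 8 + J + 1 by ring]
  · intro v hv
    have hv' : v / 2 < 2 ^ (8 + J) := half_lt (by rwa [show 8 + J + 1 = 8 + (J + 1) by ring])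
    have e : v / 2 ^ (2 + (J + 1)) = v / 2 / 2 ^ (2 + J) := by
      rw [show 2 + (J + 1) = 2 + J + 1 by ring, Nat.pow_succ', ← Nat.div_div_eq_div_mul]
    rw [show 7 + (J + 1) = 7 + J + 1 by ring, dbl_succ, hU.top _ hv', e]

end Pool.Agent.Slater63
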