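import Pool.Agent.H88.SlaterDef

namespace Pool.Agent.Slater63

open Pool.Agent.H88

/-- `U v d = true` says that the vertex `v` (a bit mask) uses the direction `d`. -/
def Adj (U : ℕ → ℕ → Bool) (a b : ℕ) : Prop := ∃ d, U a d = true ∧ b = a ^^^ 2 ^ d

/-- The used directions form a connected graph on the vertices of `Q_n`; at each vertex any two used
directions differ by one. -/
structure Good (n : ℕ) (U : ℕ → ℕ → Bool) : Prop where
  lt : ∀ v d, v < 2 ^ n → U v d = true → d < n
  symm : ∀ v d, v < 2 ^ n → U v d = true → U (v ^^^ 2 ^ d) d = true
  adj : ∀ v d d', v < 2 ^ n → U v d = true → U v d' = true → d ≠ d' → d' = d + 1 ∨ d = d' + 1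
  conn : ∀ v w, v < 2 ^ n → w < 2 ^ n → Relation.ReflTransGen (Adj U) v w

theorem xor_pow_lt {n v d : ℕ} (hv : v < 2 ^ n) (hd : d < n) : v ^^^ 2 ^ d < 2 ^ n :=
  Nat.xor_lt_two_pow hv (Nat.pow_lt_pow_right (by norm_num) hd)

theorem xor_xor_self (v w : ℕ) : (v ^^^ w) ^^^ w = v := by
  rw [Nat.xor_assoc, Nat.xor_self, Nat.xor_zero]

theorem two_pow_inj {a b : ℕ} (h : 2 ^ a = 2 ^ b) : a = b :=
  Nat.pow_right_injective (le_refl 2) h

theorem xor_pow_inj {v d d' : ℕ} (h : v ^^^ 2 ^ d = v ^^^ 2 ^ d') : d = d' := by
  apply two_pow_inj
  exact Nat.xor_right_injective h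

/-- Admissible lists: simple paths of the graph of used directions. -/
def Pth (n : ℕ) (U : ℕ → ℕ → Bool) (l : List ℕ) : Prop :=
  l.Nodup ∧ (∀ x ∈ l, x < 2 ^ n) ∧ l.IsChain (Adj U)

theorem pth_length {n : ℕ} {U : ℕ → ℕ → Bool} {l : List ℕ} (h : Pth n U l) :
    l.length ≤ 2 ^ n := by
  have h1 : l.toFinset ⊆ Finset.range (2 ^ n) := by
    intro x hx
    rw [List.mem_toFinset] at hx
    exact Finset.mem_range.mpr (h.2.1 x hx)
  have h2 := Finset.card_le_card h1
  rwa [List.toFinset_card_of_nodup h.1, Finset.card_range] at h2

theorem exists_long {n : ℕ} {U : ℕ → ℕ → Bool} (hU : Good n U) :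
    ∃ l : List ℕ, Pth n U l ∧ l.length = 2 ^ n := by
  classical
  -- a longest admissible list
  have hex : ∃ k, ∃ l : List ℕ, Pth n U l ∧ l.length = k := ⟨0, [], ⟨by simp, by simp, by simp⟩, rfl⟩
  set k := Nat.findGreatest (fun k => ∃ l : List ℕ, Pth n U l ∧ l.length = k) (2 ^ n) with hk
  have hk1 : ∃ l : List ℕ, Pth n U l ∧ l.length = k := by
    have := Nat.findGreatest_spec (P := fun k => ∃ l : List ℕ, Pth n U l ∧ l.length = k)
      (m := 0) (n := 2 ^ n) (Nat.zero_le _) ⟨[], ⟨by simp, by simp, by simp⟩, rfl⟩
    exact this
  have hmax : ∀ l : List ℕ, Pth n U l → l.length ≤ k := by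
    intro l hl
    exact Nat.le_findGreatest (pth_length hl) ⟨l, hl, rfl⟩
  obtain ⟨l, hl, hlk⟩ := hk1
  have hpos : 0 < k := by
    have : ([0] : List ℕ).length ≤ k := hmax [0] ⟨by simp, by simp, by simp⟩
    rw [List.length_singleton] at this
    omega
  -- the list is closed under adjacency
  have hclosed : ∀ a ∈ l, ∀ b, Adj U a b → b ∈ l := by
    rintro a ha b ⟨d, hd, rfl⟩
    by_contra hb
    have haN := hl.2.1 a ha
    have hdn := hU.lt a d haN hd
    have hbN : a ^^^ 2 ^ d < 2 ^ n := xor_pow_lt haN hdn
    obtain ⟨l1, l2, hsplit⟩ := List.append_of_mem ha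
    · rcases List.eq_nil_or_concat l1 with h1 | ⟨l1', p, h1⟩
      · subst h1
        have : ((a ^^^ 2 ^ d) :: l).length ≤ k := by
          apply hmax
          refine ⟨?_, ?_, ?_⟩
          · rw [List.nodup_cons]
            exact ⟨hb, hl.1⟩
          · intro x hx
            rcases List.mem_cons.mp hx with hx | hx
            · subst hx
              exact hbN
            · exact hl.2.1 x hx
          · rw [List.isChain_cons]
            refine ⟨?_, hl.2.2⟩
            intro y hy
            rw [hsplit] at hy
            simp at hy
            subst hy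
            exact ⟨d, hU.symm _ _ haN hd, (xor_xor_self _ _).symm⟩
        simp [hlk] at this
      · cases l2 with
        | nil =>
          have : (l ++ [a ^^^ 2 ^ d]).length ≤ k := by
            apply hmax
            refine ⟨?_, ?_, ?_⟩
            · rw [List.nodup_append]
              refine ⟨hl.1, by simp, ?_⟩
              intro x hx y hy hxy
              simp only [List.mem_singleton] at hy
              subst hy
              subst hxy
              exact hb hx
            · intro x hx
              rcases List.mem_append.mp hx with hx | hx
              · exact hl.2.1 x hx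
              · simp only [List.mem_singleton] at hx
                subst hx
                exact hbN
            · rw [List.isChain_append]
              refine ⟨hl.2.2, by simp, ?_⟩
              intro x hx y hy
              rw [hsplit] at hx
              simp at hx hy
              subst hx
              subst hy
              exact ⟨d, hd, rfl⟩
          simp [hlk] at this
        | cons q l2' =>
          rw [h1] at hsplit
          have hnd := hl.1
          have hch := hl.2.2
          rw [hsplit] at hnd hch
          have hpa : Adj U p a := by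
            have := List.isChain_append.mp hch
            exact this.2.2 p (by simp) a (by simp)
          have haq : Adj U a q := by
            have := (List.isChain_append.mp hch).2.1
            rw [List.isChain_cons] at this
            exact this.1 q (by simp)
          have hpN : p < 2 ^ n := hl.2.1 p (by rw [hsplit]; simp)
          obtain ⟨d1, hd1, e1⟩ := hpa
          obtain ⟨d2, hd2, e2⟩ := haq
          have hp' : p = a ^^^ 2 ^ d1 := by rw [e1, xor_xor_self]
          have hd1' : U a d1 = true := by
            have := hU.symm p d1 hpN hd1
            rwa [← e1] at this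
          have hpq : p ≠ q := by
            intro hpq
            subst hpq
            simp [List.nodup_append] at hnd
          have hdd : d1 ≠ d2 := by
            intro h
            subst h
            exact hpq (by rw [hp', e2])
          have hdd1 : d ≠ d1 := by
            intro h
            subst h
            apply hb
            rw [← hp', hsplit]
            simp
          have hdd2 : d ≠ d2 := by
            intro h
            subst h
            apply hb
            rw [← e2, hsplit]
            simp
          have a1 := hU.adj a d d1 haN hd hd1' hdd1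
          have a2 := hU.adj a d d2 haN hd hd2 hdd2
          have a3 := hU.adj a d1 d2 haN hd1' hd2 hdd
          omega
  refine ⟨l, hl, le_antisymm (pth_length hl) ?_⟩
  have hall : ∀ w, w < 2 ^ n → w ∈ l := by
    intro w hw
    obtain ⟨a, ha⟩ : ∃ a, a ∈ l := by
      cases l with
      | nil => simp at hlk; omega
      | cons a t => exact ⟨a, by simp⟩
    have hc := hU.conn a w (hl.2.1 a ha) hw
    clear hw
    induction hc with
    | refl => exact ha
    | tail _ hbc ih => exact hclosed _ ih _ hbc
  have h1 : Finset.range (2 ^ n) ⊆ l.toFinset := by
    intro x hx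
    rw [List.mem_toFinset]
    exact hall x (Finset.mem_range.mp hx)
  have h2 := Finset.card_le_card h1
  rwa [List.toFinset_card_of_nodup hl.1, Finset.card_range] at h2

end Pool.Agent.Slater63
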