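import Pool.Agent.Slater63.Graph

namespace Pool.Agent.Slater63

open Pool.Agent.H88

theorem hasLocal_of_good {n : ℕ} {U : ℕ → ℕ → Bool} (hn : 0 < n) (hU : Good n U) :
    HasLocalHamPath n := by
  classical
  obtain ⟨l, hl, hlen⟩ := exists_long hU
  have hlt : ∀ i, i < 2 ^ n → i < l.length := fun i hi => by rw [hlen]; exact hi
  -- the direction between consecutive vertices
  have hstep : ∀ i (h : i + 1 < l.length), ∃ d, d < n ∧ U l[i] d = true ∧ l[i + 1] = l[i] ^^^ 2 ^ d := by
    intro i h
    have h1 : Adj U (l[i]) (l[i + 1]) := by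
      have := List.isChain_iff_getElem.mp hl.2.2
      exact this i h
    obtain ⟨d, hd, e⟩ := h1
    exact ⟨d, hU.lt _ _ (hl.2.1 _ (List.getElem_mem _)) hd, hd, e⟩
  let D : ℕ → ℕ := fun i => if h : i + 1 < l.length then (hstep i h).choose else 0
  have hD : ∀ i (h : i + 1 < l.length), D i < n ∧ U l[i] (D i) = true ∧
      l[i + 1] = l[i] ^^^ 2 ^ (D i) := by
    intro i h
    have := (hstep i h).choose_spec
    simp only [D, h, dif_pos]
    exact this
  have hDn : ∀ i, D i < n := by
    intro i
    by_cases h : i + 1 < l.length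
    · exact (hD i h).1
    · simp only [D, h, dif_neg, not_false_eq_true]
      exact hn
  let v : Fin (2 ^ n) → (Fin n → Bool) := fun i j => (l[(i : ℕ)]'(hlt i i.2)).testBit j
  refine ⟨v, fun i => ⟨D i, hDn i⟩, ?_, ?_, ?_⟩
  · rw [Fintype.bijective_iff_injective_and_card]
    refine ⟨?_, by simp⟩
    intro i j hij
    have e : l[(i : ℕ)]'(hlt i i.2) = l[(j : ℕ)]'(hlt j j.2) := by
      apply Nat.eq_of_testBit_eq
      intro k
      by_cases hk : k < n
      · exact congrFun hij ⟨k, hk⟩
      · have b1 := hl.2.1 _ (List.getElem_mem (hlt i i.2))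
        have b2 := hl.2.1 _ (List.getElem_mem (hlt j j.2))
        rw [Nat.testBit_lt_two_pow, Nat.testBit_lt_two_pow]
        · exact lt_of_lt_of_le b2 (Nat.pow_le_pow_right (by norm_num) (by omega))
        · exact lt_of_lt_of_le b1 (Nat.pow_le_pow_right (by norm_num) (by omega))
    have := (List.Nodup.getElem_inj_iff hl.1).mp e
    exact Fin.ext this
  · intro i h
    have hi : i + 1 < l.length := hlt _ h
    have e := (hD i hi).2.2
    funext j
    by_cases hj : j = ⟨D i, hDn i⟩
    · subst hj
      simp only [v, Function.update_self]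
      rw [e, Nat.testBit_xor, Nat.testBit_two_pow]
      simp
    · rw [Function.update_of_ne hj]
      simp only [v]
      rw [e, Nat.testBit_xor, Nat.testBit_two_pow]
      have : ¬ (D i = (j : ℕ)) := by
        intro hh
        apply hj
        apply Fin.ext
        simp [hh]
      simp [this]
  · intro i h
    have hi1 : i + 1 < l.length := hlt _ (by omega)
    have hi2 : i + 1 + 1 < l.length := hlt _ (by omega)
    have e1 := hD i hi1
    have e2 := hD (i + 1) hi2
    have hx : l[i] < 2 ^ n := hl.2.1 _ (List.getElem_mem _)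
    have hx1 : l[i + 1] < 2 ^ n := hl.2.1 _ (List.getElem_mem _)
    have u1 : U l[i + 1] (D i) = true := by
      rw [e1.2.2]
      exact hU.symm _ _ hx e1.2.1
    have hne : D i ≠ D (i + 1) := by
      intro hh
      have : l[i + 1 + 1] = l[i] := by
        rw [e2.2.2, e1.2.2, ← hh, xor_xor_self]
      have := (List.Nodup.getElem_inj_iff hl.1).mp this
      omega
    exact hU.adj _ _ _ hx1 u1 e2.2.1 hne

end Pool.Agent.Slater63
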