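import Pool.Agent.Slater63.TabOk
import Pool.Agent.Slater63.Base12

namespace Pool.Agent.Slater63

open Pool.Agent.H88

theorem hasLocal_of_TC {J : ℕ} {U : ℕ → ℕ → Bool} (hU : TC J U) : HasLocalHamPath (8 + J) :=
  hasLocal_of_good (by omega) hU.good

/-- From one two-column graph of `Q_{8+J}` to all dimensions `8 + J + 4 k`. -/
theorem hasLocal_iter {J : ℕ} {U : ℕ → ℕ → Bool} (hU : TC J U) (k : ℕ) :
    HasLocalHamPath (8 + J + 4 * k) := by
  obtain ⟨U', h⟩ := iter_tab hU k
  have := hasLocal_of_TC h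
  rwa [← Nat.add_assoc] at this

/-- `Q_n` has a local Hamiltonian path for all `n = 12, 16, 20, …`. -/
theorem zero_mod_four (k : ℕ) : HasLocalHamPath (12 + 4 * k) :=
  hasLocal_iter base12_ok k

end Pool.Agent.Slater63
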