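import Pool.Agent.Slater63.Main
import Pool.Agent.Slater63.Base13

namespace Pool.Agent.Slater63

open Pool.Agent.H88

/-- `Q_n` has a local Hamiltonian path for all `n = 13, 17, 21, …`. -/
theorem one_mod_four (k : ℕ) : HasLocalHamPath (13 + 4 * k) :=
  hasLocal_iter base13_ok k

end Pool.Agent.Slater63
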