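import Pool.Agent.Slater63.Bits

namespace Pool.Agent.Slater63

open Relation

/-- Two-column type: a connected graph of used directions of `Q_{8+J}` whose top direction is used
exactly at the vertices with five zero bits below the top bit. -/
structure TC (J : ℕ) (U : ℕ → ℕ → Bool) : Prop where
  good : Good (8 + J) U
  top : ∀ v, v < 2 ^ (8 + J) → (U v (7 + J) = true ↔ v / 2 ^ (2 + J) % 32 = 0)

/-- The vertices (reduced to their top twelve bits) outside the two holes. -/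
def Out (u : ℕ) : Prop := u / 128 ≠ 9 ∧ u / 128 ≠ 13

/-- Steps outside the two holes. -/
def GStep (G : ℕ → ℕ → Bool) (a b : ℕ) : Prop := Out a ∧ Out b ∧ ∃ i, G a i = true ∧ b = a ^^^ 2 ^ i

/-- The finite facts on the fixed part. -/
structure Tab (G : ℕ → ℕ → Bool) : Prop where
  lt : ∀ u, u < 4096 → Out u → ∀ i, G u i = true → i < 12
  adj : ∀ u i i', G u i = true → G u i' = true → i ≠ i' → i' = i + 1 ∨ i = i' + 1
  sym : ∀ u, u < 4096 → Out u → ∀ i, G u i = true → Out (u ^^^ 2 ^ i) → G (u ^^^ 2 ^ i) i = true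
  hol0 : ∀ u, u < 4096 → Out u → ∀ i, G u i = true → (u ^^^ 2 ^ i) / 128 = 9 →
    i = 7 ∧ ((u ^^^ 2 ^ i) ^^^ 1248) < 4
  hol1 : ∀ u, u < 4096 → Out u → ∀ i, G u i = true → (u ^^^ 2 ^ i) / 128 = 13 →
    i = 7 ∧ ((u ^^^ 2 ^ i) ^^^ 1632) / 4 = 32
  port0 : ∀ y, y < 4 → Out ((y ^^^ 1248) ^^^ 2 ^ 7) ∧ G ((y ^^^ 1248) ^^^ 2 ^ 7) 7 = true
  port1 : ∀ y, y < 4 → Out (((128 + y) ^^^ 1632) ^^^ 2 ^ 7) ∧
    G (((128 + y) ^^^ 1632) ^^^ 2 ^ 7) 7 = true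
  top : ∀ u, u < 4096 → Out u → (G u 11 = true ↔ u / 64 % 32 = 0)
  walk : ∀ y, y < 4 → ReflTransGen (GStep G) ((y ^^^ 1248) ^^^ 2 ^ 7) (((128 + y) ^^^ 1632) ^^^ 2 ^ 7)
  cover : ∀ u, u < 4096 → Out u → ∃ y, y < 4 ∧ ReflTransGen (GStep G) ((y ^^^ 1248) ^^^ 2 ^ 7) u

/-- The new graph. -/
def stepU (G : ℕ → ℕ → Bool) (J : ℕ) (U : ℕ → ℕ → Bool) (v d : ℕ) : Bool :=
  if v / 2 ^ (7 + J) = 9 then decide (d ≤ 7 + J) && U (v ^^^ (1248 * 2 ^ J)) d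
  else if v / 2 ^ (7 + J) = 13 then decide (d ≤ 7 + J) && U (v ^^^ (1632 * 2 ^ J)) d
  else decide (J ≤ d) && G (v / 2 ^ J) (d - J)

theorem hole0_lt {J v : ℕ} (h : v / 2 ^ (7 + J) = 9) : v ^^^ (1248 * 2 ^ J) < 2 ^ (7 + J) := by
  have h1 : (v ^^^ (1248 * 2 ^ J)) / 2 ^ (7 + J) = 0 := by
    rw [xor_div, h]
    have : 1248 * 2 ^ J / 2 ^ (7 + J) = 9 := by
      rw [Nat.pow_add, Nat.mul_comm (2 ^ 7), Nat.mul_comm 1248,
        Nat.mul_div_mul_left _ _ (by positivity)]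
    rw [this]
    rfl
  exact (Nat.div_eq_zero_iff_lt (by positivity)).mp h1

theorem hole1_div {J v : ℕ} (h : v / 2 ^ (7 + J) = 13) :
    (v ^^^ (1632 * 2 ^ J)) / 2 ^ (7 + J) = 1 := by
  rw [xor_div, h]
  have : 1632 * 2 ^ J / 2 ^ (7 + J) = 12 := by
    rw [Nat.pow_add, Nat.mul_comm (2 ^ 7), Nat.mul_comm 1632,
      Nat.mul_div_mul_left _ _ (by positivity)]
  rw [this]
  rfl

theorem hole1_lt {J v : ℕ} (h : v / 2 ^ (7 + J) = 13) :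
    v ^^^ (1632 * 2 ^ J) < 2 ^ (8 + J) := by
  have h1 := hole1_div h
  have h2 : v ^^^ (1632 * 2 ^ J) < (1 + 1) * 2 ^ (7 + J) := by
    rw [← Nat.div_lt_iff_lt_mul (by positivity)]
    omega
  have h3 : (2 : ℕ) ^ (8 + J) = (1 + 1) * 2 ^ (7 + J) := by
    rw [show 8 + J = (7 + J) + 1 by ring, Nat.pow_succ]
    ring
  omega

end Pool.Agent.Slater63
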