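import Pool.Agent.Slater63.StepMain

namespace Pool.Agent.Slater63

open Relation

variable {G : ℕ → ℕ → Bool} {J : ℕ} {U : ℕ → ℕ → Bool}

/-- embedding of the old cube into the two holes. -/
def phi (J w : ℕ) : ℕ := if w / 2 ^ (7 + J) = 0 then w ^^^ (1248 * 2 ^ J) else w ^^^ (1632 * 2 ^ J)

theorem div8 {w J : ℕ} (h : w < 2 ^ (8 + J)) : w / 2 ^ (7 + J) = 0 ∨ w / 2 ^ (7 + J) = 1 := by
  have : w / 2 ^ (7 + J) < 2 := by
    rw [Nat.div_lt_iff_lt_mul (by positivity)]
    rw [show 8 + J = (7 + J) + 1 by ring, Nat.pow_succ] at h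
    omega
  generalize w / 2 ^ (7 + J) = q at this ⊢
  omega

theorem xor1248_div (w J : ℕ) : (w ^^^ (1248 * 2 ^ J)) / 2 ^ (7 + J) = (w / 2 ^ (7 + J)) ^^^ 9 := by
  rw [xor_div]
  have : 1248 * 2 ^ J / 2 ^ (7 + J) = 9 := by
    rw [Nat.pow_add, Nat.mul_comm (2 ^ 7), Nat.mul_comm 1248,
      Nat.mul_div_mul_left _ _ (by positivity)]
  rw [this]

theorem xor1632_div (w J : ℕ) : (w ^^^ (1632 * 2 ^ J)) / 2 ^ (7 + J) = (w / 2 ^ (7 + J)) ^^^ 12 := by
  rw [xor_div]
  have : 1632 * 2 ^ J / 2 ^ (7 + J) = 12 := by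
    rw [Nat.pow_add, Nat.mul_comm (2 ^ 7), Nat.mul_comm 1632,
      Nat.mul_div_mul_left _ _ (by positivity)]
  rw [this]

theorem phi_lt {w : ℕ} (h : w < 2 ^ (8 + J)) : phi J w < 2 ^ (12 + J) := by
  have hw : w < 2 ^ (12 + J) := lt_trans h (Nat.pow_lt_pow_right (by norm_num) (by omega))
  have h0 : 1248 * 2 ^ J < 2 ^ (12 + J) := by
    rw [Nat.pow_add]
    exact Nat.mul_lt_mul_of_pos_right (by norm_num) (by positivity)
  have h1 : 1632 * 2 ^ J < 2 ^ (12 + J) := by
    rw [Nat.pow_add]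
    exact Nat.mul_lt_mul_of_pos_right (by norm_num) (by positivity)
  rw [phi]
  split_ifs
  · exact Nat.xor_lt_two_pow hw h0
  · exact Nat.xor_lt_two_pow hw h1

theorem stepU_phi (hU : TC J U) {w d : ℕ} (h : w < 2 ^ (8 + J)) :
    stepU G J U (phi J w) d = U w d := by
  have hd : ∀ x, x = U w d → (decide (d ≤ 7 + J) && x) = U w d := by
    rintro x rfl
    cases hx : U w d with
    | false => simp
    | true =>
      have := hU.good.lt _ _ h hx
      simp only [Bool.and_true, decide_eq_true_eq]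
      omega
  rcases div8 h with h0 | h1
  · rw [phi, if_pos h0, stepU_hole0 (by rw [xor1248_div, h0]; rfl), xor_xor_self]
    exact hd _ rfl
  · rw [phi, if_neg (by omega), stepU_hole1 (by rw [xor1632_div, h1]; rfl), xor_xor_self]
    exact hd _ rfl

theorem lift_walk {a b p : ℕ} (hp : p < 2 ^ J) (h : ReflTransGen (GStep G) a b) :
    ReflTransGen (Adj (stepU G J U)) (2 ^ J * a + p) (2 ^ J * b + p) := by
  induction h with
  | refl => exact ReflTransGen.refl
  | tail _ hbc ih =>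
    obtain ⟨ho, ho', i, hi, rfl⟩ := hbc
    refine ih.tail ⟨i + J, ?_, (mk_xor_pow hp).symm⟩
    rw [stepU_out (by rw [mk_div hp]; exact ho), mk_div hp, Nat.add_sub_cancel, hi]
    simp only [Nat.le_add_left, decide_true, Bool.true_and]

/-- the port of hole 0 at `y` and low part `p` leads into the fixed part. -/
theorem port_conn (hU : TC J U) {y p : ℕ} (hy : y < 4) (hp : p < 2 ^ J) :
    ReflTransGen (Adj (stepU G J U)) (phi J (2 ^ J * y + p))
      (2 ^ J * ((y ^^^ 1248) ^^^ 2 ^ 7) + p) := by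
  have hw : 2 ^ J * y + p < 2 ^ (8 + J) := by
    have h1 : 2 ^ J * y + p < 2 ^ J * (y + 1) := by
      rw [Nat.mul_add, Nat.mul_one]
      omega
    have h2 : 2 ^ J * (y + 1) ≤ 2 ^ (8 + J) := by
      rw [Nat.pow_add, Nat.mul_comm (2 ^ 8)]
      exact Nat.mul_le_mul_left _ (by omega)
    omega
  have h0 : (2 ^ J * y + p) / 2 ^ (7 + J) = 0 := by
    rw [div7, mk_div hp]
    omega
  refine ReflTransGen.single ⟨7 + J, ?_, ?_⟩
  · rw [stepU_phi hU hw, hU.top _ hw, div2, mk_div hp]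
    omega
  · rw [phi, if_pos h0, mk_xor hp, mk_xor_pow hp]

/-- the two ends of an old edge remain connected. -/
theorem edge_conn (hG : Tab G) (hU : TC J U) {w d : ℕ} (hw : w < 2 ^ (8 + J))
    (hd : U w d = true) :
    ReflTransGen (Adj (stepU G J U)) (phi J w) (phi J (w ^^^ 2 ^ d)) := by
  have hd8 := hU.good.lt _ _ hw hd
  rcases Nat.lt_or_ge d (7 + J) with hlt | hge
  · refine ReflTransGen.single ⟨d, ?_, ?_⟩
    · rw [stepU_phi hU hw]
      exact hd
    · rw [phi, phi, xor_div_low hlt]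
      split_ifs
      · rw [Nat.xor_right_comm]
      · rw [Nat.xor_right_comm]
  · have hd' : d = 7 + J := by omega
    subst hd'
    -- the case of a vertex with top bit 0
    have main : ∀ y p, y < 4 → p < 2 ^ J →
        ReflTransGen (Adj (stepU G J U)) (phi J (2 ^ J * y + p))
          (phi J (2 ^ J * (128 + y) + p)) := by
      intro y p hy hp
      refine (port_conn hU hy hp).trans ?_
      refine (lift_walk hp (hG.walk y hy)).trans ?_
      have hq := hG.port1 y hy
      refine ReflTransGen.single ⟨7 + J, ?_, ?_⟩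
      · rw [stepU_out (by rw [mk_div hp]; exact hq.1), mk_div hp, Nat.add_sub_cancel, hq.2]
        simp only [Nat.le_add_left, decide_true, Bool.true_and]
      · have h1 : ¬ (2 ^ J * (128 + y) + p) / 2 ^ (7 + J) = 0 := by
          rw [div7, mk_div hp]
          omega
        rw [phi, if_neg h1, mk_xor hp, mk_xor_pow hp, xor_xor_self]
    have ht := (hU.top _ hw).mp hd
    rw [div2] at ht
    have hu := lt8 hw
    have hdm : 2 ^ J * (w / 2 ^ J) + w % 2 ^ J = w := Nat.div_add_mod _ _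
    have hpm : w % 2 ^ J < 2 ^ J := Nat.mod_lt _ (by positivity)
    have hc : w / 2 ^ J < 4 ∨ ∃ y, y < 4 ∧ w / 2 ^ J = 128 + y := by
      by_cases h : w / 2 ^ J < 128
      · left
        omega
      · right
        refine ⟨w / 2 ^ J - 128, ?_, ?_⟩ <;> omega
    rcases hc with h4 | ⟨y, hy, e⟩
    · have e2 : w ^^^ 2 ^ (7 + J) = 2 ^ J * (128 + w / 2 ^ J) + w % 2 ^ J := by
        conv_lhs => rw [← hdm]
        rw [mk_xor_pow hpm]
        congr 2
        have : ∀ y, y < 4 → y ^^^ 2 ^ 7 = 128 + y := by decide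
        exact this _ h4
      have := main _ _ h4 hpm
      rw [hdm] at this
      rw [e2]
      exact this
    · have e2 : w ^^^ 2 ^ (7 + J) = 2 ^ J * y + w % 2 ^ J := by
        conv_lhs => rw [← hdm]
        rw [mk_xor_pow hpm, e]
        congr 2
        have : ∀ y, y < 4 → (128 + y) ^^^ 2 ^ 7 = y := by decide
        exact this _ hy
      have h1 := main _ _ hy hpm
      rw [← e, hdm] at h1
      rw [e2]
      refine (rev (n := 12 + J) (step_lt hG) (step_symm hG hU) ?_ h1).2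
      apply phi_lt
      rw [← e2]
      exact xor_pow_lt hw hd8

theorem all_phi (hG : Tab G) (hU : TC J U) {w w' : ℕ} (hw : w < 2 ^ (8 + J))
    (hw' : w' < 2 ^ (8 + J)) :
    ReflTransGen (Adj (stepU G J U)) (phi J w) (phi J w') := by
  have h := hU.good.conn w w' hw hw'
  have key : ∀ x, ReflTransGen (Adj U) w x → x < 2 ^ (8 + J) ∧
      ReflTransGen (Adj (stepU G J U)) (phi J w) (phi J x) := by
    intro x hx
    induction hx with
    | refl => exact ⟨hw, ReflTransGen.refl⟩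
    | tail _ hbc ih =>
      obtain ⟨hb, hc⟩ := ih
      obtain ⟨d, hd, rfl⟩ := hbc
      exact ⟨xor_pow_lt hb (hU.good.lt _ _ hb hd), hc.trans (edge_conn hG hU hb hd)⟩
  exact (key w' h).2

theorem to_phi (hG : Tab G) (hU : TC J U) {v : ℕ} (hv : v < 2 ^ (12 + J)) :
    ∃ w, w < 2 ^ (8 + J) ∧ ReflTransGen (Adj (stepU G J U)) (phi J w) v := by
  rcases cases_out v J with h9 | h13 | ho
  · refine ⟨v ^^^ (1248 * 2 ^ J), lt_trans (hole0_lt h9) (Nat.pow_lt_pow_right (by norm_num)
      (by omega)), ?_⟩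
    rw [phi, if_pos, xor_xor_self]
    exact (Nat.div_eq_zero_iff_lt (by positivity)).mpr (hole0_lt h9)
  · refine ⟨v ^^^ (1632 * 2 ^ J), hole1_lt h13, ?_⟩
    rw [phi, if_neg, xor_xor_self]
    rw [hole1_div h13]
    omega
  · obtain ⟨y, hy, hc⟩ := hG.cover _ (lt12 hv) ho
    have hp : v % 2 ^ J < 2 ^ J := Nat.mod_lt _ (by positivity)
    refine ⟨2 ^ J * y + v % 2 ^ J, ?_, ?_⟩
    · have h1 : 2 ^ J * y + v % 2 ^ J < 2 ^ J * (y + 1) := by
        rw [Nat.mul_add, Nat.mul_one]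
        omega
      have h2 : 2 ^ J * (y + 1) ≤ 2 ^ (8 + J) := by
        rw [Nat.pow_add, Nat.mul_comm (2 ^ 8)]
        exact Nat.mul_le_mul_left _ (by omega)
      omega
    · refine (port_conn hU hy hp).trans ?_
      have := lift_walk (U := U) hp hc
      rwa [Nat.div_add_mod] at this

theorem step_TC (hG : Tab G) (hU : TC J U) : TC (J + 4) (stepU G J U) := by
  have e8 : 8 + (J + 4) = 12 + J := by ring
  have e7 : 7 + (J + 4) = 11 + J := by ring
  have e2 : 2 + (J + 4) = 6 + J := by ring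
  refine ⟨⟨?_, ?_, ?_, ?_⟩, ?_⟩
  · rw [e8]
    exact step_lt hG
  · rw [e8]
    exact step_symm hG hU
  · intro v d d' _ h h' hne
    exact step_adj hG hU v d d' h h' hne
  · rw [e8]
    intro v w hv hw
    obtain ⟨x, hx, h1⟩ := to_phi hG hU hv
    obtain ⟨z, hz, h2⟩ := to_phi hG hU hw
    exact ((rev (step_lt hG) (step_symm hG hU) (phi_lt hx) h1).2.trans
      (all_phi hG hU hx hz)).trans h2
  · rw [e8, e7, e2]
    exact step_top hG

theorem iter_TC (hG : Tab G) (hU : TC J U) : ∀ k, ∃ U', TC (J + 4 * k) U'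
  | 0 => ⟨U, hU⟩
  | k + 1 => by
    obtain ⟨U', h⟩ := iter_TC hG hU k
    exact ⟨_, by
      have := step_TC hG h
      rwa [show J + 4 * (k + 1) = J + 4 * k + 4 by ring]⟩

end Pool.Agent.Slater63
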