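import Pool.Agent.Slater63.Step

namespace Pool.Agent.Slater63

open Relation

variable {G : ℕ → ℕ → Bool} {J : ℕ} {U : ℕ → ℕ → Bool}

theorem div7 (v J : ℕ) : v / 2 ^ (7 + J) = v / 2 ^ J / 128 := by
  rw [div_add]
  rfl

theorem div2 (v J : ℕ) : v / 2 ^ (2 + J) = v / 2 ^ J / 4 := by
  rw [div_add]
  rfl

theorem div6 (v J : ℕ) : v / 2 ^ (6 + J) = v / 2 ^ J / 64 := by
  rw [div_add]
  rfl

theorem lt12 {v J : ℕ} (h : v < 2 ^ (12 + J)) : v / 2 ^ J < 4096 := by
  rw [Nat.div_lt_iff_lt_mul (by positivity)]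
  rw [Nat.pow_add] at h
  exact h

theorem lt8 {v J : ℕ} (h : v < 2 ^ (8 + J)) : v / 2 ^ J < 256 := by
  rw [Nat.div_lt_iff_lt_mul (by positivity)]
  rw [Nat.pow_add] at h
  exact h

theorem stepU_hole0 {v d : ℕ} (h : v / 2 ^ (7 + J) = 9) :
    stepU G J U v d = (decide (d ≤ 7 + J) && U (v ^^^ (1248 * 2 ^ J)) d) := by
  rw [stepU, if_pos h]

theorem stepU_hole1 {v d : ℕ} (h : v / 2 ^ (7 + J) = 13) :
    stepU G J U v d = (decide (d ≤ 7 + J) && U (v ^^^ (1632 * 2 ^ J)) d) := by
  rw [stepU, if_neg (by omega), if_pos h]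

theorem stepU_out {v d : ℕ} (h : Out (v / 2 ^ J)) :
    stepU G J U v d = (decide (J ≤ d) && G (v / 2 ^ J) (d - J)) := by
  rw [stepU, if_neg (by rw [div7]; exact h.1), if_neg (by rw [div7]; exact h.2)]

theorem cases_out (v J : ℕ) : v / 2 ^ (7 + J) = 9 ∨ v / 2 ^ (7 + J) = 13 ∨ Out (v / 2 ^ J) := by
  rw [div7, Out]
  omega

theorem step_lt (hG : Tab G) (v d : ℕ) (hv : v < 2 ^ (12 + J)) (h : stepU G J U v d = true) :
    d < 12 + J := by
  rcases cases_out v J with h9 | h13 | ho
  · rw [stepU_hole0 h9] at h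
    simp only [Bool.and_eq_true, decide_eq_true_eq] at h
    omega
  · rw [stepU_hole1 h13] at h
    simp only [Bool.and_eq_true, decide_eq_true_eq] at h
    omega
  · rw [stepU_out ho] at h
    simp only [Bool.and_eq_true, decide_eq_true_eq] at h
    have := hG.lt _ (lt12 hv) ho _ h.2
    omega

theorem step_adj (hG : Tab G) (hU : TC J U) (v d d' : ℕ)
    (h : stepU G J U v d = true) (h' : stepU G J U v d' = true) (hne : d ≠ d') :
    d' = d + 1 ∨ d = d' + 1 := by
  rcases cases_out v J with h9 | h13 | ho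
  · rw [stepU_hole0 h9] at h h'
    simp only [Bool.and_eq_true, decide_eq_true_eq] at h h'
    refine hU.good.adj _ _ _ (lt_trans (hole0_lt h9) ?_) h.2 h'.2 hne
    exact Nat.pow_lt_pow_right (by norm_num) (by omega)
  · rw [stepU_hole1 h13] at h h'
    simp only [Bool.and_eq_true, decide_eq_true_eq] at h h'
    exact hU.good.adj _ _ _ (hole1_lt h13) h.2 h'.2 hne
  · rw [stepU_out ho] at h h'
    simp only [Bool.and_eq_true, decide_eq_true_eq] at h h'
    have := hG.adj _ _ _ h.2 h'.2 (by omega)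
    omega

theorem step_symm (hG : Tab G) (hU : TC J U) (v d : ℕ) (hv : v < 2 ^ (12 + J))
    (h : stepU G J U v d = true) : stepU G J U (v ^^^ 2 ^ d) d = true := by
  rcases cases_out v J with h9 | h13 | ho
  · rw [stepU_hole0 h9] at h
    simp only [Bool.and_eq_true, decide_eq_true_eq] at h
    obtain ⟨hd, hw⟩ := h
    have hw7 := hole0_lt h9
    have hw8 : v ^^^ (1248 * 2 ^ J) < 2 ^ (8 + J) :=
      lt_trans hw7 (Nat.pow_lt_pow_right (by norm_num) (by omega))
    rcases Nat.lt_or_ge d (7 + J) with hlt | hge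
    · rw [stepU_hole0 (by rw [xor_div_low hlt]; exact h9)]
      simp only [Bool.and_eq_true, decide_eq_true_eq]
      refine ⟨hd, ?_⟩
      rw [Nat.xor_right_comm]
      exact hU.good.symm _ _ hw8 hw
    · have hd' : d = 7 + J := le_antisymm hd hge
      subst hd'
      have ht := (hU.top _ hw8).mp hw
      rw [div2] at ht
      have hq : (v ^^^ (1248 * 2 ^ J)) / 2 ^ J < 128 := by
        rw [Nat.div_lt_iff_lt_mul (by positivity)]
        rw [Nat.pow_add] at hw7
        exact hw7
      have hq4 : (v ^^^ (1248 * 2 ^ J)) / 2 ^ J < 4 := by omega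
      have hport := hG.port0 _ hq4
      have e : (v ^^^ 2 ^ (7 + J)) / 2 ^ J
          = (((v ^^^ (1248 * 2 ^ J)) / 2 ^ J) ^^^ 1248) ^^^ 2 ^ 7 := by
        rw [xor_div_high, xor_mul_div, xor_xor_self]
      rw [stepU_out (by rw [e]; exact hport.1), e, Nat.add_sub_cancel, hport.2]
      simp only [Nat.le_add_left, decide_true, Bool.true_and]
  · rw [stepU_hole1 h13] at h
    simp only [Bool.and_eq_true, decide_eq_true_eq] at h
    obtain ⟨hd, hw⟩ := h
    have hw8 := hole1_lt h13
    rcases Nat.lt_or_ge d (7 + J) with hlt | hge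
    · rw [stepU_hole1 (by rw [xor_div_low hlt]; exact h13)]
      simp only [Bool.and_eq_true, decide_eq_true_eq]
      refine ⟨hd, ?_⟩
      rw [Nat.xor_right_comm]
      exact hU.good.symm _ _ hw8 hw
    · have hd' : d = 7 + J := le_antisymm hd hge
      subst hd'
      have ht := (hU.top _ hw8).mp hw
      rw [div2] at ht
      have hq := hole1_div h13
      rw [div7] at hq
      obtain ⟨y, hy, hy4⟩ : ∃ y, (v ^^^ (1632 * 2 ^ J)) / 2 ^ J = 128 + y ∧ y < 4 := by
        refine ⟨(v ^^^ (1632 * 2 ^ J)) / 2 ^ J - 128, ?_, ?_⟩ <;> omega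
      have hport := hG.port1 _ hy4
      have e : (v ^^^ 2 ^ (7 + J)) / 2 ^ J = ((128 + y) ^^^ 1632) ^^^ 2 ^ 7 := by
        rw [xor_div_high, ← hy, xor_mul_div, xor_xor_self]
      rw [stepU_out (by rw [e]; exact hport.1), e, Nat.add_sub_cancel, hport.2]
      simp only [Nat.le_add_left, decide_true, Bool.true_and]
  · have hu := lt12 hv
    rw [stepU_out ho] at h
    simp only [Bool.and_eq_true, decide_eq_true_eq] at h
    obtain ⟨hd, hw⟩ := h
    obtain ⟨i, rfl⟩ := Nat.exists_eq_add_of_le' hd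
    rw [Nat.add_sub_cancel] at hw
    have e : (v ^^^ 2 ^ (i + J)) / 2 ^ J = (v / 2 ^ J) ^^^ 2 ^ i := xor_div_high
    rcases cases_out (v ^^^ 2 ^ (i + J)) J with k9 | k13 | ko
    · have k9' := k9
      rw [div7, e] at k9'
      obtain ⟨hi, hp⟩ := hG.hol0 _ hu ho _ hw k9'
      subst hi
      rw [stepU_hole0 k9]
      simp only [le_refl, decide_true, Bool.true_and]
      rw [hU.top _ (lt_trans (hole0_lt k9) (Nat.pow_lt_pow_right (by norm_num) (by omega))),
        div2, xor_mul_div, e]
      omega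
    · have k13' := k13
      rw [div7, e] at k13'
      obtain ⟨hi, hp⟩ := hG.hol1 _ hu ho _ hw k13'
      subst hi
      rw [stepU_hole1 k13]
      simp only [le_refl, decide_true, Bool.true_and]
      rw [hU.top _ (hole1_lt k13), div2, xor_mul_div, e]
      omega
    · rw [stepU_out ko, e]
      rw [e] at ko
      simp only [Nat.le_add_left, decide_true, Bool.true_and, Nat.add_sub_cancel]
      exact hG.sym _ hu ho _ hw ko

theorem step_top (hG : Tab G) (v : ℕ) (hv : v < 2 ^ (12 + J)) :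
    stepU G J U v (11 + J) = true ↔ v / 2 ^ (6 + J) % 32 = 0 := by
  rcases cases_out v J with h9 | h13 | ho
  · rw [stepU_hole0 h9]
    rw [div7] at h9
    rw [div6]
    simp only [Bool.and_eq_true, decide_eq_true_eq]
    constructor
    · intro h
      omega
    · intro h
      omega
  · rw [stepU_hole1 h13]
    rw [div7] at h13
    rw [div6]
    simp only [Bool.and_eq_true, decide_eq_true_eq]
    constructor
    · intro h
      omega
    · intro h
      omega
  · rw [stepU_out ho, div6]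
    simp only [Nat.le_add_left, decide_true, Bool.true_and, Nat.add_sub_cancel]
    exact hG.top _ (lt12 hv) ho

end Pool.Agent.Slater63
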